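import Mathlib
import Pool.Agent.Helper292.ForceCH

set_option autoImplicit false

/-! Under CH: a strongly Luzin family of points of the cube with omega one coordinates. -/

namespace Pool.Agent.H967Z.CpSeq

open Set Filter Topology Cardinal
open Pool.Agent.Helper292.ForceCH (Om countable_Iio exists_bound)

abbrev K : Type := Om → Bool
abbrev Y : Type := ℕ × Om → Bool
abbrev Code : Type := Finset ((ℕ × Om) × Bool)

def Cyl (t : Code) : Set Y := {y | ∀ p ∈ t, y p.1 = p.2}

def Supp {ι : Type} (J : Set ι) (U : Set (ι → Bool)) : Prop :=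
  ∀ y y' : ι → Bool, (∀ p ∈ J, y p = y' p) → y ∈ U → y' ∈ U

lemma Supp.mono {ι : Type} {J J' : Set ι} {U : Set (ι → Bool)} (h : Supp J U) (hJ : J ⊆ J') :
    Supp J' U := fun y y' hy => h y y' fun p hp => hy p (hJ hp)

lemma Supp.compl {ι : Type} {J : Set ι} {U : Set (ι → Bool)} (h : Supp J U) : Supp J Uᶜ :=
  fun y y' hy hn hy' => hn (h y' y (fun p hp => (hy p hp).symm) hy')

lemma Supp.closure {ι : Type} {J : Set ι} {U : Set (ι → Bool)} (h : Supp J U) :
    Supp J (closure U) := by
  classical
  intro y y' hy hc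
  have hcont : Continuous (fun z : ι → Bool => fun p => if p ∈ J then z p else y' p) := by
    refine continuous_pi fun p => ?_
    by_cases hp : p ∈ J
    · simpa [hp] using continuous_apply p
    · simpa [hp] using continuous_const
  have h1 : MapsTo (fun z : ι → Bool => fun p => if p ∈ J then z p else y' p) U U := by
    intro z hz
    exact h z _ (fun p hp => by simp [hp]) hz
  have h2 := h1.closure hcont hc
  have h3 : (fun p => if p ∈ J then y p else y' p) = y' := by
    funext p
    by_cases hp : p ∈ J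
    · simp [hp, hy p hp]
    · simp [hp]
  simpa [h3] using h2

lemma exists_finset_nhds {ι : Type} {W : Set (ι → Bool)} (hW : IsOpen W) {y : ι → Bool}
    (hy : y ∈ W) : ∃ s : Finset ι, ∀ z : ι → Bool, (∀ p ∈ s, z p = y p) → z ∈ W := by
  have := hW.mem_nhds hy
  rw [nhds_pi, Filter.mem_pi'] at this
  obtain ⟨s, t, ht, hs⟩ := this
  refine ⟨s, fun z hz => hs fun p hp => ?_⟩
  rw [hz p hp]
  exact mem_of_mem_nhds (ht p)

lemma isOpen_agree {ι : Type} (s : Finset ι) (y : ι → Bool) :
    IsOpen {z : ι → Bool | ∀ p ∈ s, z p = y p} := by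
  have : {z : ι → Bool | ∀ p ∈ s, z p = y p} = ⋂ p ∈ s, (fun z : ι → Bool => z p) ⁻¹' {y p} := by
    ext z; simp
  rw [this]
  exact isOpen_biInter_finset fun p _ => (isOpen_discrete _).preimage (continuous_apply p)

lemma isOpen_cyl (t : Code) : IsOpen (Cyl t) := by
  have : Cyl t = ⋂ p ∈ t, (fun z : Y => z p.1) ⁻¹' {p.2} := by
    ext z; simp [Cyl]
  rw [this]
  exact isOpen_biInter_finset fun p _ => (isOpen_discrete _).preimage (continuous_apply p.1)

lemma exists_cyl {W : Set Y} (hW : IsOpen W) {y : Y} (hy : y ∈ W) :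
    ∃ t : Code, y ∈ Cyl t ∧ Cyl t ⊆ W := by
  classical
  obtain ⟨s, hs⟩ := exists_finset_nhds hW hy
  refine ⟨s.image fun p => (p, y p), ?_, fun z hz => hs z fun p hp => ?_⟩
  · intro q hq
    obtain ⟨p, -, rfl⟩ := Finset.mem_image.1 hq
    rfl
  · exact hz (p, y p) (Finset.mem_image_of_mem _ hp)

lemma countable_codes {J : Set (ℕ × Om)} (hJ : J.Countable) :
    {t : Code | ∀ p ∈ t, p.1 ∈ J}.Countable := by
  have h1 : (J ×ˢ (univ : Set Bool)).Countable := hJ.prod countable_univ
  have h2 := Set.countable_setOf_finite_subset h1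
  refine (h2.preimage_of_injOn (f := fun t : Code => (t : Set ((ℕ × Om) × Bool)))
    (Finset.coe_injective.injOn)).mono ?_
  intro t ht
  exact ⟨t.finite_toSet, fun p hp => ⟨ht p hp, trivial⟩⟩

def cons (x : K) (y : Y) : Y := fun p => match p with
  | (0, i) => x i
  | (k + 1, i) => y (k, i)

def head (y : Y) : K := fun i => y (0, i)
def tail (y : Y) : Y := fun p => y (p.1 + 1, p.2)

lemma cons_head_tail (y : Y) : cons (head y) (tail y) = y := by
  funext ⟨k, i⟩
  cases k <;> rfl

lemma continuous_head : Continuous head := continuous_pi fun _ => continuous_apply _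
lemma continuous_tail : Continuous tail := continuous_pi fun _ => continuous_apply _

lemma continuous_cons_left (y : Y) : Continuous fun x => cons x y := by
  refine continuous_pi fun ⟨k, i⟩ => ?_
  cases k
  · exact continuous_apply i
  · exact continuous_const

lemma continuous_cons_right (x : K) : Continuous (cons x) := by
  refine continuous_pi fun ⟨k, i⟩ => ?_
  cases k
  · exact continuous_const
  · exact continuous_apply _

def sec (x : K) (U : Set Y) : Set Y := cons x ⁻¹' U

lemma supp_sec {J : Set (ℕ × Om)} {U : Set Y} (h : Supp J U) (x : K) :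
    Supp {p | (p.1 + 1, p.2) ∈ J} (sec x U) := by
  intro y y' hy hU
  refine h _ _ ?_ hU
  rintro ⟨k, i⟩ hp
  cases k
  · rfl
  · exact hy _ hp

/-- Kuratowski Ulam for countably supported dense open sets. -/
lemma ku {J : Set (ℕ × Om)} (hJ : J.Countable) {U : Set Y} (ho : IsOpen U) (hd : Dense U)
    (hs : Supp J U) : ∀ᶠ x in residual K, Dense (sec x U) := by
  classical
  set J' : Set (ℕ × Om) := {p | (p.1 + 1, p.2) ∈ J} with hJ'
  have hJ'c : J'.Countable := hJ.preimage_of_injOn (f := fun p : ℕ × Om => (p.1 + 1, p.2))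
    (fun p _ q _ h => by
      simp only [Prod.mk.injEq, add_left_inj] at h
      exact Prod.ext h.1 h.2)
  have h1 : ∀ t ∈ {t : Code | ∀ p ∈ t, p.1 ∈ J'}, ∀ᶠ x in residual K,
      (Cyl t).Nonempty → ∃ y ∈ Cyl t, cons x y ∈ U := by
    intro t _
    by_cases hne : (Cyl t).Nonempty
    · refine mem_of_superset (residual_of_dense_open
        (s := ⋃ y ∈ Cyl t, (fun x => cons x y) ⁻¹' U) ?_ ?_) ?_
      · exact isOpen_biUnion fun y _ => ho.preimage (continuous_cons_left y)
      · rw [dense_iff_inter_open]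
        rintro W hW ⟨w, hw⟩
        obtain ⟨y, hy⟩ := hne
        obtain ⟨z, ⟨hz1, hz2⟩, hz⟩ := hd.inter_open_nonempty (head ⁻¹' W ∩ tail ⁻¹' Cyl t)
          ((hW.preimage continuous_head).inter ((isOpen_cyl t).preimage continuous_tail))
          ⟨cons w y, hw, hy⟩
        refine ⟨head z, hz1, ?_⟩
        simp only [mem_iUnion]
        exact ⟨tail z, hz2, by simpa [cons_head_tail] using hz⟩
      · intro x hx _
        simp only [mem_iUnion] at hx
        obtain ⟨y, hy, hx⟩ := hx
        exact ⟨y, hy, hx⟩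
    · exact Eventually.of_forall fun x h => absurd h hne
  have h2 := (eventually_countable_ball (countable_codes hJ'c)).2 h1
  filter_upwards [h2] with x hx
  rw [dense_iff_inter_open]
  rintro W hW ⟨w, hw⟩
  obtain ⟨s, hws, hsW⟩ := exists_cyl hW hw
  obtain ⟨y, hy, hyU⟩ := hx (s.filter fun p => p.1 ∈ J') (fun p hp => (Finset.mem_filter.1 hp).2)
    ⟨w, fun p hp => hws p (Finset.mem_filter.1 hp).1⟩
  refine ⟨fun p => if p ∈ J' then y p else w p, hsW fun p hp => ?_, ?_⟩
  · by_cases h : p.1 ∈ J'
    · simp only [h, if_true]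
      exact hy p (Finset.mem_filter.2 ⟨hp, h⟩)
    · simp only [h, if_false]
      exact hws p hp
  · exact supp_sec hs x y _ (fun p hp => by
      have : p ∈ J' := hp
      simp [this]) hyU

def Large : ℕ → Set Y → Prop
  | 0, U => U = Set.univ
  | n + 1, U => ∀ᶠ x in residual K, Large n (sec x U)

lemma large_of_dense : ∀ (n : ℕ) (J : Set (ℕ × Om)) (U : Set Y), J.Countable →
    (∀ p ∈ J, p.1 < n) → IsOpen U → Dense U → Supp J U → Large n U
  | 0, J, U, _, hn, _, hd, hs => by
    obtain ⟨y, hy⟩ := hd.nonempty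
    exact eq_univ_of_forall fun z => hs y z (fun p hp => absurd (hn p hp) (by simp)) hy
  | n + 1, J, U, hJ, hn, ho, hd, hs => by
    filter_upwards [ku hJ ho hd hs] with x hx
    refine large_of_dense n _ _ ?_ ?_ (ho.preimage (continuous_cons_right x)) hx (supp_sec hs x)
    · exact hJ.preimage_of_injOn (f := fun p : ℕ × Om => (p.1 + 1, p.2))
        (fun p _ q _ h => by
          simp only [Prod.mk.injEq, add_left_inj] at h
          exact Prod.ext h.1 h.2)
    · intro p hp
      have := hn _ hp
      simpa using this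

/-- a countable family of cylinders with dense union refining a given family -/
lemma exists_refine {ι : Type} (n : ℕ) (G : ι → Set Y) (ho : ∀ i, IsOpen (G i))
    (hs : ∀ i, Supp {p | p.1 < n} (G i)) (hd : Dense (⋃ i, G i)) :
    ∃ c : ℕ → Code, (∀ k, ∃ i, Cyl (c k) ⊆ G i) ∧ (∀ k, ∀ p ∈ c k, p.1.1 < n) ∧
      Dense (⋃ k, Cyl (c k)) := by
  classical
  have h1 : ∀ t : Code, ∃ t' : Code, (∃ i, Cyl t' ⊆ G i) ∧ (∀ p ∈ t', p.1.1 < n) ∧
      ((∀ p ∈ t, p.1.1 < n) → (Cyl t).Nonempty → (Cyl t').Nonempty ∧ Cyl t' ⊆ Cyl t) := by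
    have key : ∀ t : Code, (∀ p ∈ t, p.1.1 < n) → (Cyl t).Nonempty → ∃ t' : Code,
        (∃ i, Cyl t' ⊆ G i) ∧ (∀ p ∈ t', p.1.1 < n) ∧ (Cyl t').Nonempty ∧ Cyl t' ⊆ Cyl t := by
      intro t ht hne
      obtain ⟨z, hz1, hz2⟩ := hd.inter_open_nonempty _ (isOpen_cyl t) hne
      obtain ⟨i, hi⟩ := mem_iUnion.1 hz2
      obtain ⟨s, hzs, hsub⟩ := exists_cyl ((isOpen_cyl t).inter (ho i)) ⟨hz1, hi⟩
      have hmod : ∀ w ∈ Cyl (s.filter fun p => p.1.1 < n),
          (fun p => if p.1 < n then w p else z p) ∈ Cyl s := by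
        intro w hw p hp
        by_cases h : p.1.1 < n
        · simp only [h, if_true]
          exact hw p (Finset.mem_filter.2 ⟨hp, h⟩)
        · simp only [h, if_false]
          exact hzs p hp
      refine ⟨s.filter fun p => p.1.1 < n, ⟨i, fun w hw => ?_⟩,
        fun p hp => (Finset.mem_filter.1 hp).2,
        ⟨z, fun p hp => hzs p (Finset.mem_filter.1 hp).1⟩, fun w hw p hp => ?_⟩
      · exact hs i _ w (fun p hp => by
          have : p.1 < n := hp
          simp [this]) (hsub (hmod w hw)).2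
      · have := (hsub (hmod w hw)).1 p hp
        simpa [ht p hp] using this
    intro t
    by_cases h : (∀ p ∈ t, p.1.1 < n) ∧ (Cyl t).Nonempty
    · obtain ⟨t', a, b, c, d⟩ := key t h.1 h.2
      exact ⟨t', a, b, fun _ _ => ⟨c, d⟩⟩
    · obtain ⟨t', a, b, -, -⟩ := key ∅ (by simp) ⟨fun _ => true, by simp [Cyl]⟩
      exact ⟨t', a, b, fun h1 h2 => absurd ⟨h1, h2⟩ h⟩
  choose F hF1 hF2 hF3 using h1
  let Js : ℕ → Set (ℕ × Om) := fun k => Nat.rec ∅
    (fun _ A => A ∪ ⋃ t ∈ {t : Code | ∀ p ∈ t, p.1 ∈ A}, Prod.fst '' ((F t : Code) : Set ((ℕ × Om) × Bool))) k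
  have hJs : ∀ k, Js (k + 1) =
      Js k ∪ ⋃ t ∈ {t : Code | ∀ p ∈ t, p.1 ∈ Js k}, Prod.fst '' ((F t : Code) : Set ((ℕ × Om) × Bool)) := fun _ => rfl
  have hc : ∀ k, (Js k).Countable := by
    intro k
    induction k with
    | zero => exact countable_empty
    | succ k ih =>
      rw [hJs]
      exact ih.union ((countable_codes ih).biUnion fun t _ =>
        ((F t).finite_toSet.image _).countable)
  have hmono : Monotone Js := monotone_nat_of_le_succ fun k => by
    rw [hJs]; exact subset_union_left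
  set J : Set (ℕ × Om) := ⋃ k, Js k with hJ
  have hJc : J.Countable := countable_iUnion hc
  have hclosed : ∀ t : Code, (∀ p ∈ t, p.1 ∈ J) → ∀ p ∈ F t, p.1 ∈ J := by
    intro t ht p hp
    have : ∃ k, ∀ q ∈ t, q.1 ∈ Js k := by
      have h2 : ∀ q ∈ t, ∀ᶠ k in atTop, q.1 ∈ Js k := by
        intro q hq
        obtain ⟨k, hk⟩ := mem_iUnion.1 (ht q hq)
        filter_upwards [eventually_ge_atTop k] with m hm using hmono hm hk
      exact ((eventually_all_finset t).2 h2).exists
    obtain ⟨k, hk⟩ := this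
    refine mem_iUnion.2 ⟨k + 1, ?_⟩
    rw [hJs]
    right
    simp only [mem_iUnion]
    exact ⟨t, hk, p, hp, rfl⟩
  obtain ⟨e, he⟩ := (countable_codes hJc).exists_eq_range ⟨∅, by simp⟩
  refine ⟨fun k => F (e k), fun k => hF1 _, fun k => hF2 _, ?_⟩
  rw [dense_iff_inter_open]
  rintro W hW ⟨w, hw⟩
  obtain ⟨s, hws, hsW⟩ := exists_cyl hW hw
  have hmem : (s.filter fun p => p.1 ∈ J ∧ p.1.1 < n) ∈ range e := by
    rw [← he]
    exact fun p hp => (Finset.mem_filter.1 hp).2.1
  obtain ⟨k, hk⟩ := hmem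
  obtain ⟨⟨z, hz⟩, hsub⟩ := hF3 (e k) (by rw [hk]; exact fun p hp => (Finset.mem_filter.1 hp).2.2)
    ⟨w, by rw [hk]; exact fun p hp => hws p (Finset.mem_filter.1 hp).1⟩
  have hek : ∀ p ∈ e k, p.1 ∈ J := by
    rw [hk]; exact fun p hp => (Finset.mem_filter.1 hp).2.1
  refine ⟨fun p => if p ∈ J ∧ p.1 < n then z p else w p, hsW fun p hp => ?_,
    mem_iUnion.2 ⟨k, fun p hp => ?_⟩⟩
  · by_cases h : p.1 ∈ J ∧ p.1.1 < n
    · simp only [h, and_self, if_true]
      refine hsub hz p ?_
      rw [hk]
      exact Finset.mem_filter.2 ⟨hp, h⟩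
    · simp only [h, if_false]
      exact hws p hp
  · have h : p.1 ∈ J ∧ p.1.1 < n := ⟨hclosed _ hek p hp, hF2 _ p hp⟩
    simp only [h, and_self, if_true]
    exact hz p hp

theorem exists_rec {I : Type} [LinearOrder I] [WellFoundedLT I] {X : Type} [Inhabited X]
    (Phi : I → (I → X) → X → Prop)
    (hloc : ∀ i (D D' : I → X) x, (∀ j, j < i → D j = D' j) → Phi i D x → Phi i D' x)
    (hex : ∀ i D, ∃ x, Phi i D x) : ∃ D : I → X, ∀ i, Phi i D (D i) := by
  classical
  let step : (i : I) → ((j : I) → j < i → X) → X := fun i D =>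
    Classical.choose (hex i (fun j => if h : j < i then D j h else default))
  let D : I → X := WellFounded.fix (wellFounded_lt (α := I)) step
  refine ⟨D, fun i => ?_⟩
  have h1 : D i = step i (fun j _ => D j) := WellFounded.fix_eq _ _ _
  have h2 : Phi i (fun j => if h : j < i then D j else default) (step i (fun j _ => D j)) :=
    Classical.choose_spec (hex i (fun j => if h : j < i then D j else default))
  rw [← h1] at h2
  refine hloc i _ _ _ ?_ h2
  intro j hj
  simp [hj]

lemma countable_Iio' (b : Om) : (Iio b).Countable := by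
  have := countable_Iio b
  exact Set.countable_coe_iff.1 this

lemma countable_lists (b : Om) : {l : List Om | ∀ a ∈ l, a < b}.Countable := by
  have := countable_Iio b
  refine (countable_range (List.map (Subtype.val : {a : Om // a < b} → Om))).mono ?_
  intro l hl
  exact ⟨l.attachWith _ hl, List.attachWith_map_subtype_val hl⟩

lemma bound_of_countable {s : Set Om} (hs : s.Countable) : ∃ a, ∀ b ∈ s, b < a := by
  rcases s.eq_empty_or_nonempty with rfl | hne
  · exact ⟨Classical.arbitrary Om, by simp⟩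
  · obtain ⟨f, rfl⟩ := hs.exists_eq_range hne
    obtain ⟨a, ha⟩ := exists_bound f
    exact ⟨a, by rintro _ ⟨n, rfl⟩; exact ha n⟩

lemma dense_ne (v : K) : ({v}ᶜ : Set K) ∈ residual K := by
  classical
  refine residual_of_dense_open isOpen_compl_singleton ?_
  rw [dense_iff_inter_open]
  rintro W hW ⟨w, hw⟩
  obtain ⟨s, hs⟩ := exists_finset_nhds hW hw
  obtain ⟨a, ha⟩ := bound_of_countable s.finite_toSet.countable
  refine ⟨Function.update w a (!v a), hs _ fun p hp => ?_, fun h => ?_⟩
  · exact Function.update_of_ne (ha p hp).ne _ _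
  · have := congrFun (mem_singleton_iff.1 h) a
    simp at this

def secL (l : List K) (U : Set Y) : Set Y := l.foldl (fun V x => sec x V) U

def emb (x : Om → K) (a : ℕ → Om) : Y := fun p => x (a p.1) p.2

lemma emb_cons (x : Om → K) (a : ℕ → Om) :
    emb x a = cons (x (a 0)) (emb x fun k => a (k + 1)) := by
  funext ⟨k, i⟩
  cases k <;> rfl

/-- strictly increasing on the first `n` places -/
def Inc (n : ℕ) (a : ℕ → Om) : Prop := ∀ j k, j < k → k < n → a j < a k

lemma exists_surj (hCH : Cardinal.aleph 1 = Cardinal.continuum.{0}) :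
    ∃ e : Om → (ℕ → Code), Function.Surjective e := by
  have h0 : #Om = Cardinal.continuum := by
    rw [mk_toType, Cardinal.card_ord, hCH]
  have : Infinite Om := by
    rw [Cardinal.infinite_iff, h0]
    exact aleph0_le_continuum
  have h1 : #(ℕ → Code) = #Om := by
    rw [← Cardinal.power_def, mk_finset_of_infinite]
    simp [h0]
  obtain ⟨e⟩ := Cardinal.eq.1 h1
  exact ⟨e.symm, e.symm.surjective⟩

/-- The strongly Luzin family. -/
theorem exists_luzin (hCH : Cardinal.aleph 1 = Cardinal.continuum.{0}) :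
    ∃ x : Om → K, Function.Injective x ∧ ∀ (n : ℕ) (c : ℕ → Code),
      (∀ k, ∀ p ∈ c k, p.1.1 < n) → Dense (⋃ k, Cyl (c k)) →
      ∃ α : Om, ∀ a : ℕ → Om, Inc n a → (∀ j < n, α < a j) → emb x a ∈ ⋃ k, Cyl (c k) := by
  obtain ⟨e, he⟩ := exists_surj hCH
  let E : Om → Set Y := fun g => ⋃ k, Cyl (e g k)
  obtain ⟨x, hx⟩ := exists_rec (I := Om) (X := K)
    (fun b D v => (∀ g ∈ Iio b, v ≠ D g) ∧ ∀ g ∈ Iio b, ∀ l ∈ {l : List Om | ∀ a ∈ l, a < b},
      ∀ n : ℕ, Large (n + 1) (secL (l.map D) (E g)) → Large n (sec v (secL (l.map D) (E g))))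
    (by
      intro b D D' v hD ⟨h1, h2⟩
      refine ⟨fun g hg => hD g hg ▸ h1 g hg, fun g hg l hl n => ?_⟩
      have : l.map D' = l.map D := List.map_congr_left fun a ha => (hD a (hl a ha)).symm
      rw [this]
      exact h2 g hg l hl n)
    (by
      intro b D
      have h1 : ∀ᶠ v in residual K, ∀ g ∈ Iio b, v ≠ D g :=
        (eventually_countable_ball (countable_Iio' b)).2 fun g _ => dense_ne (D g)
      have h2 : ∀ᶠ v in residual K, ∀ g ∈ Iio b, ∀ l ∈ {l : List Om | ∀ a ∈ l, a < b},
          ∀ n : ℕ, Large (n + 1) (secL (l.map D) (E g)) →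
            Large n (sec v (secL (l.map D) (E g))) := by
        refine (eventually_countable_ball (countable_Iio' b)).2 fun g _ => ?_
        refine (eventually_countable_ball (countable_lists b)).2 fun l _ => ?_
        refine eventually_countable_forall.2 fun n => ?_
        by_cases h : Large (n + 1) (secL (l.map D) (E g))
        · filter_upwards [h] with v hv _ using hv
        · exact Eventually.of_forall fun v h' => absurd h' h
      exact (dense_of_mem_residual (h1.and h2)).nonempty)
  refine ⟨x, ?_, fun n c hc hd => ?_⟩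
  · intro a b hab
    rcases lt_trichotomy a b with h | h | h
    · exact absurd hab.symm ((hx b).1 a h)
    · exact h
    · exact absurd hab ((hx a).1 b h)
  · obtain ⟨g, rfl⟩ := he c
    have hL : Large n (E g) := by
      refine large_of_dense n (⋃ k, Prod.fst '' ((e g k : Code) : Set ((ℕ × Om) × Bool))) _
        (countable_iUnion fun k => ((e g k).finite_toSet.image _).countable) ?_
        (isOpen_iUnion fun k => isOpen_cyl _) hd ?_
      · intro p hp
        obtain ⟨k, q, hq, rfl⟩ := mem_iUnion.1 hp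
        exact hc k q hq
      · intro y y' hy hU
        obtain ⟨k, hk⟩ := mem_iUnion.1 hU
        refine mem_iUnion.2 ⟨k, fun p hp => ?_⟩
        rw [← hy p.1 (mem_iUnion.2 ⟨k, p, hp, rfl⟩)]
        exact hk p hp
    have key : ∀ (m : ℕ) (l : List Om) (a : ℕ → Om), Inc m a → (∀ j < m, g < a j) →
        (∀ j < m, ∀ b ∈ l, b < a j) → Large m (secL (l.map x) (E g)) →
        emb x a ∈ secL (l.map x) (E g) := by
      intro m
      induction m with
      | zero =>
        intro l a _ _ _ h
        have h' : secL (l.map x) (E g) = Set.univ := h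
        rw [h']; trivial
      | succ m ih =>
        intro l a hinc hg hl h
        have h1 := (hx (a 0)).2 g (hg 0 (by omega)) l (hl 0 (by omega)) m h
        have h2 : sec (x (a 0)) (secL (l.map x) (E g)) = secL ((l ++ [a 0]).map x) (E g) := by
          simp [secL, List.foldl_append]
        have h3 := ih (l ++ [a 0]) (fun k => a (k + 1))
          (fun j k hjk hk => hinc _ _ (by omega) (by omega)) (fun j hj => hg _ (by omega))
          (fun j hj b hb => by
            rcases List.mem_append.1 hb with hb | hb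
            · exact hl _ (by omega) b hb
            · rw [List.mem_singleton.1 hb]
              exact hinc _ _ (by omega) (by omega)) (h2 ▸ h1)
        rw [← h2] at h3
        rw [emb_cons]
        exact h3
    exact ⟨g, fun a ha hg => key n [] a ha hg (by simp) hL⟩

end Pool.Agent.H967Z.CpSeq
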