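import Pool.Agent.H967Z.CpLuzin

set_option autoImplicit false

/-! The function space of a strongly Luzin family. -/

namespace Pool.Agent.H967Z.CpSeq

open Set Filter Topology
open Pool.Agent.Helper292.ForceCH (Om)

def Luzin (x : Om → K) : Prop := ∀ (n : ℕ) (c : ℕ → Code),
  (∀ k, ∀ p ∈ c k, p.1.1 < n) → Dense (⋃ k, Cyl (c k)) →
  ∃ α : Om, ∀ a : ℕ → Om, Inc n a → (∀ j < n, α < a j) → emb x a ∈ ⋃ k, Cyl (c k)

variable {x : Om → K}

lemma Luzin.lz (hx : Luzin x) {ι : Type} (n : ℕ) (G : ι → Set Y) (ho : ∀ i, IsOpen (G i))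
    (hs : ∀ i, Supp {p | p.1 < n} (G i)) (hd : Dense (⋃ i, G i)) :
    ∃ T : Set ι, T.Countable ∧ ∃ α : Om, ∀ a : ℕ → Om, Inc n a → (∀ j < n, α < a j) →
      ∃ i ∈ T, emb x a ∈ G i := by
  obtain ⟨c, h1, h2, h3⟩ := exists_refine n G ho hs hd
  choose i hi using h1
  obtain ⟨α, hα⟩ := hx n c h2 h3
  refine ⟨range i, countable_range i, α, fun a ha hb => ?_⟩
  obtain ⟨k, hk⟩ := mem_iUnion.1 (hα a ha hb)
  exact ⟨i k, mem_range_self k, hi k hk⟩

lemma Luzin.hl (hx : Luzin x) {ι : Type} : ∀ (n : ℕ) (U : ι → Set Y), (∀ i, IsOpen (U i)) →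
    (∀ i, Supp {p | p.1 < n} (U i)) → ∃ T : Set ι, T.Countable ∧ ∀ a : ℕ → Om, Inc n a →
      ∀ i, emb x a ∈ U i → ∃ i' ∈ T, emb x a ∈ U i'
  | 0, U, _, hs => by
    by_cases h : ∃ i, (U i).Nonempty
    · obtain ⟨i, y, hy⟩ := h
      exact ⟨{i}, countable_singleton i, fun a _ _ _ =>
        ⟨i, rfl, hs i y _ (fun p hp => absurd hp (by simp)) hy⟩⟩
    · exact ⟨∅, countable_empty, fun a _ i hi => absurd ⟨i, _, hi⟩ h⟩
  | n + 1, U, ho, hs => by
    have hW : Supp {p : ℕ × Om | p.1 < n + 1} (⋃ i, U i) := by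
      intro y y' hy h
      obtain ⟨i, hi⟩ := mem_iUnion.1 h
      exact mem_iUnion.2 ⟨i, hs i y y' hy hi⟩
    obtain ⟨T0, hT0, α, hα⟩ := hx.lz (n + 1)
      (fun o : Option ι => o.elim (closure (⋃ i, U i))ᶜ U)
      (by rintro (_ | i); exacts [isClosed_closure.isOpen_compl, ho i])
      (by rintro (_ | i); exacts [hW.closure.compl, hs i])
      (by
        intro y
        by_cases h : y ∈ closure (⋃ i, U i)
        · refine closure_mono (iUnion_subset fun i => ?_) h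
          exact subset_iUnion (fun o : Option ι => o.elim (closure (⋃ i, U i))ᶜ U) (some i)
        · exact subset_closure (mem_iUnion.2 ⟨none, h⟩))
    have ih : ∀ b : Om, ∃ T : Set ι, T.Countable ∧ ∀ a : ℕ → Om, Inc n a →
        ∀ i, emb x a ∈ sec (x b) (U i) → ∃ i' ∈ T, emb x a ∈ sec (x b) (U i') := fun b =>
      Luzin.hl hx n (fun i => sec (x b) (U i))
        (fun i => (ho i).preimage (continuous_cons_right _))
        (fun i => (supp_sec (hs i) (x b)).mono fun p hp => by simpa using hp)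
    choose T hT1 hT2 using ih
    have hIic : (Iic α).Countable := by
      rw [← Iio_insert]
      exact (countable_Iio' α).insert α
    refine ⟨some ⁻¹' T0 ∪ ⋃ b ∈ Iic α, T b,
      (hT0.preimage (Option.some_injective ι)).union (hIic.biUnion fun b _ => hT1 b),
      fun a ha i hi => ?_⟩
    rcases lt_or_ge α (a 0) with h | h
    · obtain ⟨o, ho1, ho2⟩ := hα a ha (fun j hj => by
        rcases Nat.eq_zero_or_pos j with rfl | hj0
        · exact h
        · exact h.trans (ha 0 j hj0 hj))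
      rcases o with _ | i'
      · exact absurd (subset_closure (mem_iUnion.2 ⟨i, hi⟩)) ho2
      · exact ⟨i', Or.inl ho1, ho2⟩
    · rw [emb_cons] at hi ⊢
      obtain ⟨i', h1, h2⟩ := hT2 (a 0) (fun k => a (k + 1))
        (fun j k hjk hk => ha _ _ (by omega) (by omega)) i hi
      exact ⟨i', Or.inr (mem_biUnion (show a 0 ∈ Iic α from h) h1), h2⟩

lemma supp_head (O : Set K) : Supp {p : ℕ × Om | p.1 < 1} (head ⁻¹' O) := by
  intro y y' hy h
  have : head y' = head y := funext fun i => (hy (0, i) (by simp)).symm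
  show head y' ∈ O
  rw [this]
  exact h

lemma inc_one (b : Om) : Inc 1 (fun _ => b) := fun j k hjk hk => by omega

lemma Luzin.k1 (hx : Luzin x) {O : Set K} (ho : IsOpen O) (hd : Dense O) :
    ∃ α, ∀ b, α < b → x b ∈ O := by
  obtain ⟨T, -, α, hα⟩ := hx.lz 1 (fun _ : Unit => head ⁻¹' O)
    (fun _ => ho.preimage continuous_head) (fun _ => supp_head O) (by
      rw [iUnion_const, dense_iff_inter_open]
      rintro W hW ⟨w, hw⟩
      obtain ⟨v, hv1, hv2⟩ := hd.inter_open_nonempty ((fun v => cons v (tail w)) ⁻¹' W)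
        (hW.preimage (continuous_cons_left _)) ⟨head w, by simpa [cons_head_tail] using hw⟩
      exact ⟨cons v (tail w), hv1, hv2⟩)
  refine ⟨α, fun b hb => ?_⟩
  obtain ⟨_, -, h⟩ := hα (fun _ => b) (inc_one b) (fun _ _ => hb)
  exact h

lemma Luzin.hk (hx : Luzin x) {ι : Type} (U : ι → Set K) (ho : ∀ i, IsOpen (U i)) :
    ∃ T : Set ι, T.Countable ∧ ∀ b i, x b ∈ U i → ∃ i' ∈ T, x b ∈ U i' := by
  obtain ⟨T, hT, h⟩ := hx.hl 1 (fun i => head ⁻¹' U i)
    (fun i => (ho i).preimage continuous_head) (fun i => supp_head _)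
  exact ⟨T, hT, fun b i hi => h (fun _ => b) (inc_one b) i hi⟩

lemma Luzin.k2 (hx : Luzin x) {O : Set K} (ho : IsOpen O) :
    ∃ (V : Set K) (J : Set Om), IsOpen V ∧ J.Countable ∧ Supp J V ∧ ∀ b, x b ∈ O ↔ x b ∈ V := by
  obtain ⟨T, hT, h⟩ := hx.hk
    (ι := {q : Finset Om × K // ∀ z : K, (∀ p ∈ q.1, z p = q.2 p) → z ∈ O})
    (fun q => {z | ∀ p ∈ q.1.1, z p = q.1.2 p}) (fun q => isOpen_agree _ _)
  refine ⟨⋃ q ∈ T, {z | ∀ p ∈ q.1.1, z p = q.1.2 p}, ⋃ q ∈ T, (q.1.1 : Set Om),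
    isOpen_biUnion fun q _ => isOpen_agree _ _,
    hT.biUnion fun q _ => q.1.1.finite_toSet.countable, ?_, fun b => ⟨fun hb => ?_, fun hb => ?_⟩⟩
  · intro y y' hy hV
    obtain ⟨q, hq, hyq⟩ := mem_iUnion₂.1 hV
    refine mem_biUnion hq fun p hp => ?_
    rw [← hy p (mem_biUnion hq hp)]
    exact hyq p hp
  · obtain ⟨s, hs⟩ := exists_finset_nhds ho hb
    obtain ⟨q, hq, hb'⟩ := h b ⟨(s, x b), hs⟩ (fun _ _ => rfl)
    exact mem_biUnion hq hb'
  · obtain ⟨q, -, hyq⟩ := mem_iUnion₂.1 hb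
    exact q.2 _ hyq

lemma Luzin.k3 (hx : Luzin x) : ∃ (s : Finset Om) (w : K), ∀ B : Set K, IsOpen B → B.Nonempty →
    (∀ z ∈ B, ∀ p ∈ s, z p = w p) → ∀ α, ∃ b, α < b ∧ x b ∈ B := by
  let ι := {B : Set K // IsOpen B ∧ ∃ α, ∀ b, α < b → x b ∉ B}
  obtain ⟨T, hT, h⟩ := hx.hk (ι := ι) (fun B => B.1) (fun B => B.2.1)
  have hnd : ¬ Dense (⋃ B : ι, B.1) := by
    intro hd
    obtain ⟨α, hα⟩ := hx.k1 (isOpen_iUnion fun B : ι => B.2.1) hd
    have hb : ∀ B : ι, ∃ α, ∀ b, α < b → x b ∉ B.1 := fun B => B.2.2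
    choose f hf using hb
    obtain ⟨γ, hγ⟩ := bound_of_countable ((hT.image f).insert α)
    obtain ⟨B, hB⟩ := mem_iUnion.1 (hα γ (hγ α (mem_insert _ _)))
    obtain ⟨B', hB', hx'⟩ := h γ B hB
    exact hf B' γ (hγ _ (mem_insert_of_mem _ (mem_image_of_mem f hB'))) hx'
  obtain ⟨w, hw⟩ : ∃ w, w ∉ closure (⋃ B : ι, B.1) := by
    by_contra hc
    exact hnd fun w => by_contra fun h => hc ⟨w, h⟩
  obtain ⟨s, hs⟩ := exists_finset_nhds isClosed_closure.isOpen_compl (show w ∈ _ᶜ from hw)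
  refine ⟨s, w, fun B hB ⟨z, hz⟩ hsub α => ?_⟩
  by_contra hc
  refine hs z (hsub z hz) (subset_closure (mem_iUnion.2 ⟨⟨B, hB, α, fun b hb hxb => ?_⟩, hz⟩))
  exact hc ⟨b, hb, hxb⟩

lemma Luzin.k4 (hx : Luzin x) {B : Set K} (hB : IsOpen B) (hu : ∀ α, ∃ b, α < b ∧ x b ∈ B)
    (F : ℕ → Set K) (hF : ∀ m, IsClosed (F m)) (hc : ∀ b, x b ∈ B → ∃ m, x b ∈ F m) :
    ∃ m, ∃ B' : Set K, IsOpen B' ∧ B'.Nonempty ∧ B' ⊆ B ∩ F m := by
  by_contra hcon
  have h1 : ∀ m, ∃ α, ∀ b, α < b → x b ∈ (F m ∩ closure B)ᶜ := by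
    intro m
    refine hx.k1 ((hF m).inter isClosed_closure).isOpen_compl ?_
    rw [dense_iff_inter_open]
    rintro W hW ⟨w, hw⟩
    by_contra hne
    have hsub : W ⊆ F m ∩ closure B := fun z hz => by
      by_contra h
      exact hne ⟨z, hz, h⟩
    refine hcon ⟨m, W ∩ B, hW.inter hB, ?_, fun z hz => ⟨hz.2, (hsub hz.1).1⟩⟩
    exact mem_closure_iff.1 (hsub hw).2 W hW hw
  choose f hf using h1
  obtain ⟨γ, hγ⟩ := bound_of_countable (countable_range f)
  obtain ⟨b, hb, hxb⟩ := hu γ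
  obtain ⟨m, hm⟩ := hc b hxb
  exact hf m b ((hγ _ (mem_range_self m)).trans hb) ⟨hm, subset_closure hxb⟩

section

variable [TopologicalSpace Om]

theorem Luzin.hsep (hx : Luzin x) (hi : IsInducing x) (S : Set {f : Om → ℝ // Continuous f}) :
    ∃ c ⊆ S, c.Countable ∧ S ⊆ closure c := by
  classical
  have hO : ∀ (f : S) (r : ℚ × ℚ), ∃ O : Set K, IsOpen O ∧
      x ⁻¹' O = f.1.1 ⁻¹' Ioo (r.1 : ℝ) r.2 := fun f r =>
    hi.isOpen_iff.1 (isOpen_Ioo.preimage f.1.2)
  choose O hO1 hO2 using hO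
  have hT : ∀ κ : (Σ n : ℕ, Fin n → ℚ × ℚ), ∃ T : Set S, T.Countable ∧ ∀ a : ℕ → Om, Inc κ.1 a →
      ∀ f : S, (∀ j : Fin κ.1, x (a j) ∈ O f (κ.2 j)) →
        ∃ g ∈ T, ∀ j : Fin κ.1, x (a j) ∈ O g (κ.2 j) := by
    rintro ⟨n, q⟩
    refine hx.hl n (fun f : S => {y : Y | ∀ j : Fin n, (fun i => y (j, i)) ∈ O f (q j)}) ?_ ?_
    · intro f
      rw [setOf_forall]
      exact isOpen_iInter_of_finite fun j =>
        (hO1 f (q j)).preimage (continuous_pi fun i => continuous_apply _)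
    · intro f y y' hy h j
      have : (fun i => y' (j, i)) = fun i => y (j, i) :=
        funext fun i => (hy (j, i) j.2).symm
      rw [this]
      exact h j
  choose T hT1 hT2 using hT
  refine ⟨⋃ κ, Subtype.val '' T κ, iUnion_subset fun κ => ?_,
    countable_iUnion fun κ => (hT1 κ).image _, fun f hf => ?_⟩
  · rintro _ ⟨g, -, rfl⟩
    exact g.2
  · rw [mem_closure_iff_nhds]
    intro t ht
    rw [nhds_subtype, mem_comap] at ht
    obtain ⟨s, hs, hst⟩ := ht
    rw [nhds_pi, Filter.mem_pi'] at hs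
    obtain ⟨I, u, hu, hI⟩ := hs
    have hr : ∀ b : Om, ∃ r : ℚ × ℚ, f.1 b ∈ Ioo (r.1 : ℝ) r.2 ∧ Ioo (r.1 : ℝ) r.2 ⊆ u b := by
      intro b
      obtain ⟨l, h, ⟨h1, h2⟩, h3⟩ := mem_nhds_iff_exists_Ioo_subset.1 (hu b)
      obtain ⟨q1, hq1, hq1'⟩ := exists_rat_btwn h1
      obtain ⟨q2, hq2, hq2'⟩ := exists_rat_btwn h2
      exact ⟨(q1, q2), ⟨hq1', hq2⟩, (Ioo_subset_Ioo hq1.le hq2'.le).trans h3⟩
    choose r hr1 hr2 using hr
    let e := I.orderEmbOfFin rfl
    let a : ℕ → Om := fun j => if h : j < I.card then e ⟨j, h⟩ else Classical.arbitrary Om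
    have ha : ∀ j : Fin I.card, a j = e j := fun j => by simp [a, j.2]
    obtain ⟨g, hg, hgO⟩ := hT2 ⟨I.card, fun j => r (e j)⟩ a
      (fun j k hjk hk => by
        have hk' : k < I.card := hk
        have h1 := ha ⟨j, hjk.trans hk'⟩
        have h2 := ha ⟨k, hk'⟩
        simp only at h1 h2
        rw [h1, h2]
        exact e.strictMono hjk) ⟨f, hf⟩
      (fun j => by
        show a j ∈ x ⁻¹' O ⟨f, hf⟩ (r (e j))
        rw [hO2, ha]
        exact hr1 _)
    refine ⟨g.1, hst (hI fun b hb => ?_), mem_iUnion.2 ⟨_, g, hg, rfl⟩⟩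
    have : b ∈ range e := by
      rw [Finset.range_orderEmbOfFin]
      exact hb
    obtain ⟨j, rfl⟩ := this
    have h1 : a j ∈ x ⁻¹' O g (r (e j)) := hgO j
    rw [hO2, ha] at h1
    exact hr2 _ h1

theorem Luzin.not_seq (hx : Luzin x) (hi : IsInducing x) (D : Set {f : Om → ℝ // Continuous f})
    (hD : D.Countable) : seqClosure D ≠ univ := by
  classical
  intro hseq
  have hV : ∀ (g : {f : Om → ℝ // Continuous f}) (e : Bool), ∃ (V : Set K) (J : Set Om),
      IsOpen V ∧ J.Countable ∧ Supp J V ∧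
        ∀ b, (if e then 1 / 2 < g.1 b else g.1 b < 1 / 2) ↔ x b ∈ V := by
    intro g e
    have : IsOpen {b | if e then 1 / 2 < g.1 b else g.1 b < 1 / 2} := by
      cases e
      · simpa using isOpen_lt g.2 continuous_const
      · simpa using isOpen_lt continuous_const g.2
    obtain ⟨O, hO, hOx⟩ := hi.isOpen_iff.1 this
    obtain ⟨V, J, h1, h2, h3, h4⟩ := hx.k2 hO
    refine ⟨V, J, h1, h2, h3, fun b => Iff.trans ?_ (h4 b)⟩
    exact (Set.ext_iff.1 hOx b).symm
  choose V J hVo hJ hVs hVx using hV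
  obtain ⟨s, w, hsw⟩ := hx.k3
  obtain ⟨ξ, hξ⟩ := bound_of_countable (s.finite_toSet.countable.union
    (hD.biUnion fun g _ => countable_iUnion fun e => hJ g e))
  have hξs : ∀ p ∈ s, p ≠ ξ := fun p hp => (hξ p (Or.inl hp)).ne
  have hξJ : ∀ g ∈ D, ∀ e, ∀ p ∈ J g e, p ≠ ξ := fun g hg e p hp =>
    (hξ p (Or.inr (mem_biUnion hg (mem_iUnion.2 ⟨e, hp⟩)))).ne
  let f : {f : Om → ℝ // Continuous f} := ⟨fun b => if x b ξ then 1 else 0,
    (continuous_of_discreteTopology (f := fun c : Bool => if c then (1 : ℝ) else 0)).comp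
      ((continuous_apply ξ).comp hi.continuous)⟩
  obtain ⟨g, hgD, hg⟩ : f ∈ seqClosure D := by rw [hseq]; trivial
  have hpt : ∀ b, Tendsto (fun k => (g k).1 b) atTop (𝓝 (f.1 b)) := fun b =>
    (((continuous_apply b).comp continuous_subtype_val).tendsto f).comp hg
  let F : Bool → ℕ → Set K := fun e m => ⋂ k ≥ m, closure (V (g k) e)
  have hF : ∀ e m, IsClosed (F e m) := fun e m =>
    isClosed_iInter fun k => isClosed_iInter fun _ => isClosed_closure
  have hcov : ∀ b, ∃ m, x b ∈ F (x b ξ) m := by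
    intro b
    have h1 : ∀ᶠ k in atTop, x b ∈ V (g k) (x b ξ) := by
      have h2 := hpt b
      cases hb : x b ξ
      · have h3 : f.1 b = 0 := by simp [f, hb]
        rw [h3] at h2
        filter_upwards [h2.eventually (gt_mem_nhds (show (0 : ℝ) < 1 / 2 by norm_num))] with k hk
        exact (hVx (g k) false b).1 (by simpa using hk)
      · have h3 : f.1 b = 1 := by simp [f, hb]
        rw [h3] at h2
        filter_upwards [h2.eventually (lt_mem_nhds (show (1 / 2 : ℝ) < 1 by norm_num))] with k hk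
        exact (hVx (g k) true b).1 (by simpa using hk)
    obtain ⟨m, hm⟩ := eventually_atTop.1 h1
    exact ⟨m, mem_iInter₂.2 fun k hk => subset_closure (hm k hk)⟩
  have hop : ∀ e : Bool, IsOpen {z : K | z ξ = e} := fun e =>
    (isOpen_discrete ({e} : Set Bool)).preimage (f := fun z : K => z ξ) (continuous_apply ξ)
  have hB0 : IsOpen ({z : K | ∀ p ∈ s, z p = w p} ∩ {z | z ξ = false}) :=
    (isOpen_agree s w).inter (hop false)
  obtain ⟨m, B1, hB1o, ⟨z1, hz1⟩, hB1⟩ := hx.k4 hB0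
    (hsw _ hB0 ⟨Function.update w ξ false,
      fun p hp => Function.update_of_ne (hξs p hp) _ _, by simp⟩ (fun z hz => hz.1))
    (F false) (hF false) (fun b hb => by
      have := hcov b
      rwa [show x b ξ = false from hb.2] at this)
  have hup : Continuous fun z : K => Function.update z ξ false :=
    continuous_id.update ξ continuous_const
  have hB2 : IsOpen ({z : K | z ξ = true} ∩ (fun z : K => Function.update z ξ false) ⁻¹' B1) :=
    (hop true).inter (hB1o.preimage hup)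
  have hB2s : ∀ z ∈ {z : K | z ξ = true} ∩ (fun z : K => Function.update z ξ false) ⁻¹' B1,
      ∀ p ∈ s, z p = w p := by
    intro z hz p hp
    rw [← (hB1 hz.2).1.1 p hp]
    exact (Function.update_of_ne (hξs p hp) _ _).symm
  obtain ⟨m', B3, hB3o, hB3n, hB3⟩ := hx.k4 hB2
    (hsw _ hB2 ⟨Function.update z1 ξ true, by simp, by
      have : z1 ξ = false := (hB1 hz1).1.2
      show Function.update (Function.update z1 ξ true) ξ false ∈ B1
      rw [Function.update_idem, ← this, Function.update_eq_self]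
      exact hz1⟩ hB2s)
    (F true) (hF true) (fun b hb => by
      have := hcov b
      rwa [show x b ξ = true from hb.1] at this)
  set k := max m m'
  have h0 : B3 ⊆ closure (V (g k) false) := by
    intro z hz
    have h1 := mem_iInter₂.1 (hB1 (hB3 hz).1.2).2 k (le_max_left _ _)
    exact (hVs (g k) false).closure _ z
      (fun p hp => Function.update_of_ne (hξJ _ (hgD k) false p hp) _ _) h1
  have h1 : B3 ⊆ closure (V (g k) true) := fun z hz =>
    mem_iInter₂.1 (hB3 hz).2 k (le_max_right _ _)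
  obtain ⟨z, hz⟩ := hB3n
  obtain ⟨z', hz', hz0⟩ := mem_closure_iff.1 (h0 hz) B3 hB3o hz
  have hne := mem_closure_iff.1 (h1 hz') _ (hB3o.inter (hVo (g k) false)) ⟨hz', hz0⟩
  obtain ⟨b, -, ⟨-, hb0⟩, hb1⟩ := hsw _ ((hB3o.inter (hVo (g k) false)).inter (hVo (g k) true)) hne
    (fun z hz => hB2s z (hB3 hz.1.1).1) ξ
  have a0 := (hVx (g k) false b).2 hb0
  have a1 := (hVx (g k) true b).2 hb1
  simp only [Bool.false_eq_true, if_false, if_true] at a0 a1
  linarith

end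

theorem main (hCH : Cardinal.aleph 1 = Cardinal.continuum.{0}) :
    ∃ (X : Type) (_ : TopologicalSpace X), T35Space X ∧
      (∀ S : Set {f : X → ℝ // Continuous f}, ∃ c ⊆ S, c.Countable ∧ S ⊆ closure c) ∧
      ¬ ∃ D : Set {f : X → ℝ // Continuous f}, D.Countable ∧ seqClosure D = univ := by
  obtain ⟨x, hinj, hx⟩ := exists_luzin hCH
  letI : TopologicalSpace Om := TopologicalSpace.induced x inferInstance
  have hi : IsInducing x := ⟨rfl⟩
  have he : IsEmbedding x := ⟨hi, hinj⟩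
  exact ⟨Om, inferInstance, he.t35Space, Luzin.hsep hx hi,
    fun ⟨D, h1, h2⟩ => Luzin.not_seq hx hi D h1 h2⟩

end Pool.Agent.H967Z.CpSeq
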