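import Mathlib

set_option autoImplicit false
open Classical Finset

namespace Pool.Agent.H967Z.IndRatio

abbrev V (N d : ℕ) : Type := (Fin N × Bool) ⊕ (Fin d × Bool)

def adj {N d : ℕ} : V N d → V N d → Prop
  | Sum.inl p, Sum.inl q => p.1 = q.1 ∧ p.2 ≠ q.2
  | Sum.inl p, Sum.inr q => p.2 = q.2
  | Sum.inr p, Sum.inl q => p.2 = q.2
  | Sum.inr _, Sum.inr _ => False

def G (N d : ℕ) : SimpleGraph (V N d) where
  Adj := adj
  symm := ⟨by
    rintro (p | p) (q | q) h <;> simp only [adj] at h ⊢
    · exact ⟨h.1.symm, h.2.symm⟩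
    · exact h.symm
    · exact h.symm⟩
  loopless := ⟨by
    rintro (p | p) h <;> simp [adj] at h⟩

def col {N d : ℕ} : V N d → Bool
  | Sum.inl p => p.2
  | Sum.inr p => !p.2

lemma col_ne {N d : ℕ} {u v : V N d} (h : (G N d).Adj u v) : col u ≠ col v := by
  rcases u with p | p <;> rcases v with q | q <;> simp only [G, adj, col] at h ⊢
  · exact h.2
  · rw [h]; cases q.2 <;> simp
  · rw [h]; cases q.2 <;> simp

lemma cliqueFree (N d : ℕ) : (G N d).CliqueFree 3 := by
  intro s hs
  rw [SimpleGraph.is3Clique_iff] at hs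
  obtain ⟨a, b, c, hab, hac, hbc, -⟩ := hs
  have h1 := col_ne hab
  have h2 := col_ne hac
  have h3 := col_ne hbc
  revert h1 h2 h3
  cases col a <;> cases col b <;> cases col c <;> simp

lemma deg_ge (N d : ℕ) (h : d ≤ N) (v : V N d) : d ≤ (G N d).degree v := by
  rw [← SimpleGraph.card_neighborFinset_eq_degree]
  rcases v with p | p
  · have : (univ : Finset (Fin d)).card ≤ ((G N d).neighborFinset (Sum.inl p)).card := by
      apply card_le_card_of_injOn (fun j => (Sum.inr (j, p.2) : V N d))
      · intro j _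
        simp [G, adj]
      · intro a _ b _ hab
        simpa using hab
    simpa using this
  · have : (univ : Finset (Fin N)).card ≤ ((G N d).neighborFinset (Sum.inr p)).card := by
      apply card_le_card_of_injOn (fun j => (Sum.inl (j, p.2) : V N d))
      · intro j _
        simp [G, adj]
      · intro a _ b _ hab
        simpa using hab
    have h2 : N ≤ ((G N d).neighborFinset (Sum.inr p)).card := by simpa using this
    omega

lemma indep_card_le (N d : ℕ) (s : Finset (V N d)) (hs : (G N d).IsIndepSet (s : Set (V N d))) :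
    s.card ≤ N + 2 * d := by
  have : s.card ≤ (univ : Finset (Fin N ⊕ (Fin d × Bool))).card := by
    apply card_le_card_of_injOn (Sum.map Prod.fst id)
    · intro j _
      simp
    · rintro (p | p) ha (q | q) hb hab
      · by_contra hne
        apply hs ha hb hne
        simp only [Sum.map_inl, Sum.inl.injEq] at hab
        refine ⟨hab, ?_⟩
        intro h2
        apply hne
        rw [Prod.ext hab h2]
      · simp at hab
      · simp at hab
      · simpa using hab
  simp at this
  omega

lemma indepNum_le (N d : ℕ) : (G N d).indepNum ≤ N + 2 * d := by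
  obtain ⟨s, hs⟩ := (G N d).exists_isNIndepSet_indepNum
  rw [← hs.card_eq]
  exact indep_card_le N d s hs.isIndepSet

noncomputable def phi {N : ℕ} (d : ℕ) (f : Fin N → Option Bool) : Finset (V N d) :=
  (univ.filter (fun p : Fin N × Bool => f p.1 = some p.2)).map Function.Embedding.inl

lemma mem_phi_inl {N d : ℕ} (f : Fin N → Option Bool) (p : Fin N × Bool) :
    (Sum.inl p : V N d) ∈ phi d f ↔ f p.1 = some p.2 := by
  simp [phi]

lemma not_mem_phi_inr {N d : ℕ} (f : Fin N → Option Bool) (p : Fin d × Bool) :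
    (Sum.inr p : V N d) ∉ phi d f := by
  simp [phi]

lemma phi_inj {N : ℕ} (d : ℕ) : Function.Injective (phi (N := N) d) := by
  intro f g h
  funext i
  have h1 := fun b => (mem_phi_inl (d := d) f (i, b)).symm.trans (h ▸ mem_phi_inl (d := d) g (i, b))
  simp only at h1
  cases hf : f i with
  | none =>
    cases hg : g i with
    | none => rfl
    | some b => have := (h1 b).2 hg; rw [hf] at this; cases this
  | some b => exact ((h1 b).1 hf).symm

lemma phi_indep {N d : ℕ} (f : Fin N → Option Bool) :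
    (G N d).IsIndepSet (phi d f : Set (V N d)) := by
  rintro (p | p) ha (q | q) hb _ hadj
  · rw [mem_coe, mem_phi_inl] at ha hb
    obtain ⟨h1, h2⟩ := hadj
    rw [h1, hb] at ha
    exact h2 (Option.some.inj ha).symm
  · exact not_mem_phi_inr f q hb
  · exact not_mem_phi_inr f p ha
  · exact hadj

lemma sum_phi (N d : ℕ) :
    ∑ f : Fin N → Option Bool, (phi d f).card = 2 * N * 3 ^ (N - 1) := by
  have h1 : ∀ f : Fin N → Option Bool, (phi d f).card =
      ∑ p : Fin N × Bool, if f p.1 = some p.2 then 1 else 0 := by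
    intro f
    rw [phi, card_map, card_filter]
  simp_rw [h1]
  rw [sum_comm]
  have h2 : ∀ p : Fin N × Bool,
      (∑ f : Fin N → Option Bool, if f p.1 = some p.2 then 1 else 0) = 3 ^ (N - 1) := by
    intro p
    rw [← card_filter]
    have := Fintype.card_filter_piFinset_const (ι := Fin N) (univ : Finset (Option Bool)) p.1 (some p.2)
    rw [Fintype.piFinset_univ] at this
    simpa using this
  simp_rw [h2]
  simp
  ring

noncomputable def I (N d : ℕ) : Finset (Finset (V N d)) :=
  univ.filter (fun s : Finset (V N d) => (G N d).IsIndepSet (s : Set (V N d)))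

lemma sum_ge (N d : ℕ) : 2 * N * 3 ^ (N - 1) ≤ ∑ s ∈ I N d, s.card := by
  rw [← sum_phi N d, ← sum_image (s := univ) (g := phi d) (f := fun s => s.card)
    (fun a _ b _ h => phi_inj d h)]
  apply sum_le_sum_of_subset
  intro s hs
  rw [mem_image] at hs
  obtain ⟨f, -, rfl⟩ := hs
  simp only [I, mem_filter, mem_univ, true_and]
  exact phi_indep f

noncomputable def T (N d : ℕ) (c : Bool) : Finset (V N d) :=
  (univ : Finset (Fin N ⊕ (Fin d × Bool))).image (Sum.map (fun i => (i, c)) id)

lemma card_T (N d : ℕ) (c : Bool) : (T N d c).card ≤ N + 2 * d := by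
  refine card_image_le.trans ?_
  simp
  omega

lemma card_I_le (N d : ℕ) : (I N d).card ≤ 3 ^ N + 2 * 2 ^ (N + 2 * d) := by
  have hsub : I N d ⊆ (univ.image (phi (N := N) d)) ∪
      ((T N d true).powerset ∪ (T N d false).powerset) := by
    intro s hs
    simp only [I, mem_filter, mem_univ, true_and] at hs
    by_cases h : ∃ q : Fin d × Bool, (Sum.inr q : V N d) ∈ s
    · obtain ⟨q, hq⟩ := h
      have key : s ⊆ T N d (!q.2) := by
        rintro (p | p) hp
        · rw [T, mem_image]
          refine ⟨Sum.inl p.1, mem_univ _, ?_⟩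
          have : ¬ (G N d).Adj (Sum.inl p) (Sum.inr q) := hs hp hq (by simp)
          simp only [G, adj] at this
          simp only [Sum.map_inl, Sum.inl.injEq]
          ext
          · rfl
          · revert this
            cases p.2 <;> cases q.2 <;> simp
        · rw [T, mem_image]
          exact ⟨Sum.inr p, mem_univ _, rfl⟩
      rw [mem_union, mem_union, mem_powerset, mem_powerset]
      right
      revert key
      cases q.2
      · intro key; left; exact key
      · intro key; right; exact key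
    · rw [mem_union]
      left
      rw [mem_image]
      refine ⟨fun i => if (Sum.inl (i, true) : V N d) ∈ s then some true else
        if (Sum.inl (i, false) : V N d) ∈ s then some false else none, mem_univ _, ?_⟩
      ext v
      rcases v with ⟨i, b⟩ | q
      · rw [mem_phi_inl]
        have hno : ¬ ((Sum.inl (i, true) : V N d) ∈ s ∧ (Sum.inl (i, false) : V N d) ∈ s) := by
          rintro ⟨h1, h2⟩
          exact hs h1 h2 (by simp) (by simp [G, adj])
        by_cases h1 : (Sum.inl (i, true) : V N d) ∈ s <;>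
          by_cases h2 : (Sum.inl (i, false) : V N d) ∈ s <;> cases b <;> simp_all
      · constructor
        · intro hq; exact absurd hq (not_mem_phi_inr _ q)
        · intro hq; exact absurd ⟨q, hq⟩ h
  refine (card_le_card hsub).trans ((card_union_le _ _).trans ?_)
  have h1 : (univ.image (phi (N := N) d)).card ≤ 3 ^ N := by
    refine card_image_le.trans ?_
    simp
  have h2 : ((T N d true).powerset ∪ (T N d false).powerset).card ≤ 2 * 2 ^ (N + 2 * d) := by
    refine (card_union_le _ _).trans ?_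
    rw [card_powerset, card_powerset]
    have a := Nat.pow_le_pow_right (show 0 < 2 by norm_num) (card_T N d true)
    have b := Nat.pow_le_pow_right (show 0 < 2 by norm_num) (card_T N d false)
    omega
  omega

lemma pow_bound (d : ℕ) : 48 * 2 ^ (4 * (12 * d + 12) + 2 * d) ≤ 3 ^ (4 * (12 * d + 12)) := by
  have h1 : (3 : ℕ) ^ (4 * (12 * d + 12)) = 81 ^ (12 * d + 12) := by
    rw [pow_mul]; norm_num
  have h2 : (2 : ℕ) ^ (4 * (12 * d + 12) + 2 * d) = 16 ^ (12 * d + 12) * 4 ^ d := by
    rw [pow_add, pow_mul, pow_mul]; norm_num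
  have h3 : (80 : ℕ) ^ (12 * d + 12) ≤ 81 ^ (12 * d + 12) := Nat.pow_le_pow_left (by norm_num) _
  have h4 : (80 : ℕ) ^ (12 * d + 12) = 16 ^ (12 * d + 12) * 5 ^ (12 * d + 12) := by
    rw [← mul_pow]; norm_num
  have h5 : (5 : ℕ) ^ (d + 3) ≤ 5 ^ (12 * d + 12) := Nat.pow_le_pow_right (by norm_num) (by omega)
  have h6 : (4 : ℕ) ^ d ≤ 5 ^ d := Nat.pow_le_pow_left (by norm_num) _
  have h7 : 48 * 4 ^ d ≤ (5 : ℕ) ^ (12 * d + 12) := by
    rw [pow_add] at h5
    omega
  rw [h1, h2]
  calc 48 * (16 ^ (12 * d + 12) * 4 ^ d) = 16 ^ (12 * d + 12) * (48 * 4 ^ d) := by ring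
    _ ≤ 16 ^ (12 * d + 12) * 5 ^ (12 * d + 12) := Nat.mul_le_mul_left _ h7
    _ ≤ _ := by rw [← h4]; exact h3

theorem main (d : ℕ) :
    ((G (4 * (12 * d + 12)) d).indepNum : ℝ) * ((I (4 * (12 * d + 12)) d).card : ℝ) <
      (2 - 1 / 4) * ∑ s ∈ I (4 * (12 * d + 12)) d, (s.card : ℝ) := by
  set N := 4 * (12 * d + 12) with hN
  have h1 : ((G N d).indepNum : ℝ) ≤ N + 2 * d := by exact_mod_cast indepNum_le N d
  have h2 : ((I N d).card : ℝ) ≤ 3 ^ N + 2 * 2 ^ (N + 2 * d) := by exact_mod_cast card_I_le N d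
  have h3 : (2 * N * 3 ^ (N - 1) : ℝ) ≤ ∑ s ∈ I N d, (s.card : ℝ) := by exact_mod_cast sum_ge N d
  have h4 : (48 * 2 ^ (N + 2 * d) : ℝ) ≤ 3 ^ N := by exact_mod_cast pow_bound d
  have h5 : (3 : ℝ) ^ N = 3 * 3 ^ (N - 1) := by
    rw [← pow_succ']; congr 1
  have h6 : (N : ℝ) = 48 * d + 48 := by rw [hN]; push_cast; ring
  have hd : (0 : ℝ) ≤ d := Nat.cast_nonneg d
  have hp : (0 : ℝ) < 3 ^ (N - 1) := by positivity
  set X : ℝ := 3 ^ (N - 1)
  have h7 : ((I N d).card : ℝ) ≤ 25 / 8 * X := by linarith
  have h8 : ((G N d).indepNum : ℝ) ≤ 25 / 24 * N := by linarith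
  have h9 : ((G N d).indepNum : ℝ) * ((I N d).card : ℝ) ≤ (25 / 24 * N) * (25 / 8 * X) :=
    mul_le_mul h8 h7 (Nat.cast_nonneg _) (by positivity)
  have h10 : (0 : ℝ) < N * X := by positivity
  nlinarith

end Pool.Agent.H967Z.IndRatio
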